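import Pool.Agent.Lib.helper11.ETRGeoC

namespace Pool.Agent.Results.MP_cb2e2a_lc.Rank6

open Pool.Agent.Cx

/-- `E` lists the hyperedges of a linear hypergraph of rank at most `k` on the vertices `< n` -/
def LinHyp (k n : ℕ) (E : List (List ℕ)) : Prop :=
  (∀ e ∈ E, (∀ v ∈ e, v < n) ∧ 2 ≤ e.toFinset.card ∧ e.toFinset.card ≤ k) ∧
    ∀ e ∈ E, ∀ f ∈ E, e.toFinset ≠ f.toFinset → (e.toFinset ∩ f.toFinset).card ≤ 1

/-- there is a straight-line realization -/
def Realizable (n : ℕ) (E : List (List ℕ)) : Prop :=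
  ∃ q : ℕ → ℝ × ℝ, (∀ u < n, ∀ v < n, q u = q v → u = v) ∧
    ∀ e ∈ E, ∃ x y : ℝ × ℝ, ∀ v < n, q v ∈ segment ℝ x y ↔ v ∈ e

lemma seg {n : ℕ} (q : ℕ → ℝ × ℝ) {x y : ℝ × ℝ} (h : x ≠ y) :
    ∃ x' y', ∀ v < n, q v ∈ segment ℝ x' y' ↔ Collinear ℝ {x, y, q v} := by
  have key : ∀ z, Collinear ℝ {x, y, z} ↔ ∃ t : ℝ, z = x + t • (y - x) := fun z => by
    constructor
    · intro hz
      obtain ⟨t, ht⟩ := (vadd_left_mem_affineSpan_pair (k := ℝ) (p₁ := x) (p₂ := y) (v := z - x)).1 (by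
        simpa using hz.mem_affineSpan_of_mem_of_ne (p₁ := x) (p₂ := y) (p₃ := z) (by simp) (by simp)
          (by simp) h)
      exact ⟨t, by rw [← vsub_eq_sub, ht]; simp⟩
    · rintro ⟨t, rfl⟩
      rw [col_iff]
      simp [D3]; ring
  have : ∀ v, ∃ t : ℝ, Collinear ℝ {x, y, q v} → q v = x + t • (y - x) := fun v => by
    by_cases h : Collinear ℝ {x, y, q v}
    · obtain ⟨t, ht⟩ := (key _).1 h
      exact ⟨t, fun _ => ht⟩
    · exact ⟨0, fun h' => (h h').elim⟩
  choose t ht using this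
  obtain ⟨T, hT⟩ := ((Set.finite_Iio n).image fun v => |t v| + 1).bddAbove
  refine ⟨x - T • (y - x), x + T • (y - x), fun v hv => ?_⟩
  rw [segment_eq_image']
  constructor
  · rintro ⟨s, -, e⟩
    exact (key _).2 ⟨-T + s * (2 * T), by rw [← e]; module⟩
  · intro hc
    have h1 : |t v| + 1 ≤ T := hT ⟨v, hv, rfl⟩
    have h2 := le_abs_self (t v)
    have h3 := neg_abs_le (t v)
    have h4 : 0 < 2 * T := by linarith [abs_nonneg (t v)]
    refine ⟨(t v + T) / (2 * T), ⟨div_nonneg (by linarith) h4.le, (div_le_one h4).2 (by linarith)⟩, ?_⟩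
    rw [ht v hc]
    have : (t v + T) / (2 * T) * (2 * T) = t v + T := div_mul_cancel₀ _ h4.ne'
    linear_combination (norm := module) this • (y - x)

open Classical in
theorem result (k : ℕ) (hk : 6 ≤ k) :
    ERHard (Lang fun I : ℕ × List (List ℕ) => LinHyp k I.1 I.2 ∧ Realizable I.1 I.2) := by
  obtain ⟨g, hg, h⟩ := rh_aff
  let r : ℕ × List (List ℕ) → ℕ × List (List ℕ) := fun p =>
    (p.1, ((List.range p.1 ×ˢ List.range p.1).filter fun t => decide (t.1 ≠ t.2)).map fun t =>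
      (List.range p.1).filter fun c => decide (On p.2 t.1 t.2 c))
  have hr : PT r := PT.id.fst.pair (PT.map (PT.filter (PP.decide (by fun_prop)) (by fun_prop))
    (by fun_prop))
  refine RH.erHard ⟨fun s => r (g s), hr.comp hg, fun s => (h s).2.trans ?_⟩
  obtain ⟨H, -⟩ := h s
  beta_reduce
  generalize g s = p at *
  obtain ⟨N, B⟩ := p
  have mem : ∀ e, e ∈ (r (N, B)).2 ↔ ∃ a < N, ∃ b < N, a ≠ b ∧
      e = (List.range N).filter fun c => decide (On B a b c) := by
    simp only [r, List.mem_map, List.mem_filter, decide_eq_true_eq, Prod.exists, List.mem_product,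
      List.mem_range]
    exact fun e => ⟨fun ⟨a, b, ⟨⟨h1, h2⟩, h3⟩, h4⟩ => ⟨a, h1, b, h2, h3, h4.symm⟩,
      fun ⟨a, h1, b, h2, h3, h4⟩ => ⟨a, b, ⟨⟨h1, h2⟩, h3⟩, h4.symm⟩⟩
  refine Iff.trans ?_ (and_iff_right ⟨fun e he => ?_, fun e he f hf ef => ?_⟩).symm
  · constructor
    · rintro ⟨q, hq⟩
      have hp : SRv N B fun a => ![(q a).1, (q a).2, 1] := fun a ha b hb c hc ab ac bc => by
        rw [← hq a ha b hb c hc ab ac bc, col_iff]
      have inj : ∀ u < N, ∀ v < N, q u = q v → u = v := fun u hu v hv e => by_contra fun uv =>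
        hp.cr_ne H hu hv uv (by ext i; fin_cases i <;> simp [cr, e, mul_comm])
      refine ⟨q, inj, fun e he => ?_⟩
      obtain ⟨a, ha, b, hb, ab, rfl⟩ := (mem e).1 he
      obtain ⟨x, y, h⟩ := seg (n := N) q fun e => ab (inj a ha b hb e)
      exact ⟨x, y, fun v (hv : v < N) => by simp [h v hv, hv, hp.on ha hb hv ab, col_iff]⟩
    · rintro ⟨q, -, hq⟩
      have h1 : ∀ a < N, ∀ b < N, a ≠ b → ∃ x y : ℝ × ℝ, ∀ v < N,
          q v ∈ segment ℝ x y ↔ On B a b v := fun a ha b hb ab => by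
        obtain ⟨x, y, h⟩ := hq _ ((mem _).2 ⟨a, ha, b, hb, ab, rfl⟩)
        exact ⟨x, y, fun v hv => by simpa [hv] using h v hv⟩
      have h2 : ∀ a < N, ∀ b < N, ∀ c < N, a ≠ b → a ≠ c → b ≠ c → Wbtw ℝ (q a) (q b) (q c) →
          Blk B a c b := fun a ha b hb c hc ab ac bc w => by
        obtain ⟨x, y, h⟩ := h1 a ha c hc ac
        have := (h b hb).1 ((convex_segment x y).segment_subset ((h a ha).2 (.inl rfl))
          ((h c hc).2 (.inr (.inl rfl))) (mem_segment_iff_wbtw.2 w))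
        exact (this.resolve_left ab.symm).resolve_left bc
      refine ⟨q, fun a ha b hb c hc ab ac bc => ⟨fun e => ?_, fun e => ?_⟩⟩
      · rcases e.wbtw_or_wbtw_or_wbtw with w | w | w
        · exact (h2 a ha b hb c hc ab ac bc w).s2
        · exact (h2 b hb c hc a ha bc ab.symm ac.symm w).s1
        · exact (h2 c hc a ha b hb ac.symm bc.symm ab w).s1.s2.s1
      · obtain ⟨x, y, h⟩ := h1 a ha b hb ab
        rw [segment_eq_image'] at h
        obtain ⟨_, -, e1⟩ := (h a ha).2 (.inl rfl)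
        obtain ⟨_, -, e2⟩ := (h b hb).2 (.inr (.inl rfl))
        obtain ⟨_, -, e3⟩ := (h c hc).2 (.inr (.inr e))
        rw [col_iff, ← e1, ← e2, ← e3]
        simp [D3]; ring
  · obtain ⟨a, ha, b, hb, ab, rfl⟩ := (mem e).1 he
    refine ⟨fun v hv => List.mem_range.1 (List.mem_filter.1 hv).1,
      Finset.one_lt_card.2 ⟨a, by simp [ha, On], b, by simp [hb, On], ab⟩, ?_⟩
    by_cases hh : ∃ β ∈ B, a ∈ β ∧ b ∈ β
    · obtain ⟨β, hβ, h1, h2⟩ := hh
      refine (Finset.card_le_card (t := β.toFinset) fun c hc => ?_).trans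
        ((β.toFinset_card_le.trans (H.2.2.1 β hβ).1).trans hk)
      simp only [List.mem_toFinset, List.mem_filter, decide_eq_true_eq] at hc ⊢
      exact (On.blk H.2.1 hβ h1 h2 ab c).1 hc.2
    · refine (Finset.card_le_card (t := {a, b}) fun c hc => ?_).trans
        (Finset.card_le_two.trans (by omega))
      simp only [List.mem_toFinset, List.mem_filter, decide_eq_true_eq] at hc
      rcases hc.2 with rfl | rfl | ⟨β, hβ, h1, h2, -⟩
      · simp
      · simp
      · exact (hh ⟨β, hβ, h1, h2⟩).elim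
  · obtain ⟨a, ha, b, hb, ab, rfl⟩ := (mem e).1 he
    obtain ⟨c, hc, d, hd, cd, rfl⟩ := (mem f).1 hf
    refine Finset.card_le_one.2 fun u hu v hv => by_contra fun uv => ef ?_
    simp only [Finset.mem_inter, List.mem_toFinset, List.mem_filter, decide_eq_true_eq] at hu hv
    ext w
    simp only [List.mem_toFinset, List.mem_filter, decide_eq_true_eq,
      ← On.trans H.2.1 ab hu.1.2 hv.1.2 uv w, ← On.trans H.2.1 cd hu.2.2 hv.2.2 uv w]

end Pool.Agent.Results.MP_cb2e2a_lc.Rank6
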